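import Pool.Agent.Lib.MP_47458b_co.LogFree
import Pool.Agent.Lib.MP_47458b_co.SqrtLower

/-!
Lower bound for the semidegree threshold in digraphs with logarithmic second term: every
admissible `f` satisfies `f k ≥ k - min (⌈(1 + √(4 k + 1)) / 2⌉) (2 ⌊log₂ (k + 1)⌋ + 4)` for all
`k ≥ 4`.
-/

namespace Pool.Agent.Results.MP_47458b_co.DigraphLogLower

open Pool.Agent.Lib.MP_47458b_co

private theorem log_lower (f : ℕ → ℝ) (hf : AdmissibleForDigraphs f) (k : ℕ) (hk : 4 ≤ k) :
    (k : ℝ) - 2 * Nat.log 2 (k + 1) - 4 ≤ f k := by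
  set H := Nat.log 2 (k + 1) with hH
  have hH2 : 2 ≤ H := by
    rw [hH]
    exact Nat.le_log_of_pow_le (by norm_num) (by omega)
  by_cases hsmall : k < 2 * H + 4
  · -- small `k`: the square root bound is nonnegative
    have h1 := digraph_sqrt_lower f hf k hk
    have hk4 : (4 : ℝ) ≤ k := by exact_mod_cast hk
    have ht2 : ⌈(1 + Real.sqrt (4 * k + 1)) / 2⌉ ≤ (k : ℤ) - 1 := by
      rw [Int.ceil_le]
      push_cast
      have h1 : Real.sqrt (4 * k + 1) ≤ 2 * k - 3 := by
        rw [Real.sqrt_le_left (by linarith)]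
        nlinarith
      linarith
    have h3 : ((⌈(1 + Real.sqrt (4 * k + 1)) / 2⌉ : ℤ) : ℝ) ≤ (k : ℝ) - 1 := by
      exact_mod_cast ht2
    have h4 : (k : ℝ) < 2 * H + 4 := by exact_mod_cast hsmall
    linarith
  · push Not at hsmall
    by_contra hcon
    push Not at hcon
    obtain ⟨κ, hκ⟩ : ∃ κ, k = κ + (2 * H + 4) := ⟨k - (2 * H + 4), by omega⟩
    set m := 2 * H + 4 with hm
    have hdeg := hostL_deg (κ := κ) (m := m) (l := H + 1) (by omega)
    have hcast : (κ : ℝ) = (k : ℝ) - 2 * H - 4 := by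
      rw [hκ, hm]
      push_cast
      ring
    have hhost : HostCondition k (f k) (hostL κ m (H + 1)) := by
      refine ⟨fun x => ?_, VL.J 0, ?_, ?_⟩
      · have h1 : (κ : ℝ) ≤ outDeg (hostL κ m (H + 1)) x := by exact_mod_cast (hdeg.1 x).1
        have h2 : (κ : ℝ) ≤ inDeg (hostL κ m (H + 1)) x := by exact_mod_cast (hdeg.1 x).2
        exact ⟨by linarith, by linarith⟩
      · exact hκ.le.trans hdeg.2.1
      · exact hκ.le.trans hdeg.2.2
    have htree : IsOrientedTree k (heapTree (κ + m)) := by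
      have := heapTree_isOrientedTree (k := κ + m)
      rw [hκ]
      exact this
    have hcont := hf k _ (hostL κ m (H + 1)) (hostL_loopless (by omega)) hhost _ _ htree
    exact hostL_free (by rw [← hκ]) (le_of_eq hm.symm) hcont

theorem result (f : ℕ → ℝ) (hf : AdmissibleForDigraphs f) (k : ℕ) (hk : 4 ≤ k) :
    (k : ℝ) - min ((⌈(1 + Real.sqrt (4 * k + 1)) / 2⌉ : ℤ) : ℝ)
      (2 * (Nat.log 2 (k + 1) : ℝ) + 4) ≤ f k := by
  have h1 := digraph_sqrt_lower f hf k hk
  have h2 := log_lower f hf k hk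
  have h3 : (k : ℝ) - f k ≤ min ((⌈(1 + Real.sqrt (4 * k + 1)) / 2⌉ : ℤ) : ℝ)
      (2 * (Nat.log 2 (k + 1) : ℝ) + 4) := le_min (by linarith) (by linarith)
  linarith

end Pool.Agent.Results.MP_47458b_co.DigraphLogLower
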