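import Pool.Agent.Lib.MP_47458b_co.DU.AllP

/-!
Upper bound for the semidegree threshold in digraphs: for some `k0` the function which is
`k - (log k) / 5` for `k ≥ k0` and `k` for `k < k0` is admissible.
-/

namespace Pool.Agent.Results.MP_47458b_co.DigraphUpper

open Pool.Agent.Lib.MP_47458b_co

theorem result : ∃ k0 : ℕ,
    AdmissibleForDigraphs (fun k => (k : ℝ) - if k0 ≤ k then Real.log k / 5 else 0) :=
  DU.admissible DU.all

end Pool.Agent.Results.MP_47458b_co.DigraphUpper
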