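import Pool.Agent.Lib.MP_47458b_co.Oriented

/-!
Lower bound for the semidegree threshold in oriented graphs: every admissible `f` satisfies
`f k ≥ k + 1 - ⌈2 √k⌉` for all `k ≥ 4`. In particular `f k = (1 - o(1)) k`.
-/

namespace Pool.Agent.Results.MP_47458b_co.OrientedLower

open Pool.Agent.Lib.MP_47458b_co

theorem result (f : ℕ → ℝ) (hf : AdmissibleForOrientedGraphs f) (k : ℕ) (hk : 4 ≤ k) :
    (k : ℝ) + 1 - ⌈2 * Real.sqrt k⌉ ≤ f k := by
  by_contra hcon
  push Not at hcon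
  set t : ℤ := ⌈2 * Real.sqrt k⌉ with ht
  have hk0 : (0 : ℝ) ≤ k := Nat.cast_nonneg k
  have hk4 : (4 : ℝ) ≤ k := by exact_mod_cast hk
  have hsq : Real.sqrt k * Real.sqrt k = k := Real.mul_self_sqrt hk0
  have hs2 : (2 : ℝ) ≤ Real.sqrt k := by
    rw [show (2 : ℝ) = Real.sqrt 4 by rw [show (4 : ℝ) = 2 ^ 2 by norm_num]; simp]
    exact Real.sqrt_le_sqrt hk4
  have ht1 : 2 * Real.sqrt k ≤ (t : ℝ) := Int.le_ceil _
  have ht2 : t ≤ k := by
    rw [ht, Int.ceil_le]
    push_cast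
    nlinarith
  have ht4 : (4 : ℤ) ≤ t := by
    have : (4 : ℝ) ≤ t := by linarith
    exact_mod_cast this
  have htt : 4 * (k : ℤ) ≤ t * t := by
    have : 4 * (k : ℝ) ≤ t * t := by nlinarith
    exact_mod_cast this
  obtain ⟨n, hn⟩ : ∃ n : ℕ, t = n := ⟨t.toNat, by omega⟩
  rw [hn] at ht2 ht4 htt
  have hn1 : n ≤ k := by exact_mod_cast ht2
  have hn4 : 4 ≤ n := by exact_mod_cast ht4
  have hnn : 4 * k ≤ n * n := by exact_mod_cast htt
  -- the parameters
  obtain ⟨r, b, hrb, hr, hb, hkrb⟩ : ∃ r b : ℕ, r + b = n ∧ 1 ≤ r ∧ 2 ≤ b ∧ k ≤ r * b := by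
    rcases Nat.even_or_odd' n with ⟨m, hm | hm⟩
    · refine ⟨m, m, by omega, by omega, by omega, ?_⟩
      subst hm
      nlinarith
    · refine ⟨m, m + 1, by omega, by omega, by omega, ?_⟩
      subst hm
      nlinarith
  have hL : k - r ≤ r * (b - 1) := by
    have : r * b = r * (b - 1) + r := by
      obtain ⟨c, rfl⟩ : ∃ c, b = c + 1 := ⟨b - 1, by omega⟩
      simp [Nat.mul_succ]
    omega
  have hM1 : 1 ≤ k + 1 - n := by omega
  have hMk : k + 1 - n ≤ k := by omega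
  have hdeg := hostO_deg (k := k) hM1 hMk
  have hcast : ((k + 1 - n : ℕ) : ℝ) = (k : ℝ) + 1 - t := by
    rw [Nat.cast_sub (by omega), hn]
    push_cast
    ring
  have hhost : HostCondition k (f k) (hostO k (k + 1 - n)) := by
    refine ⟨fun x => ?_, VO.v, hdeg.2⟩
    have h1 : ((k + 1 - n : ℕ) : ℝ) ≤ outDeg (hostO k (k + 1 - n)) x := by
      exact_mod_cast (hdeg.1 x).1
    have h2 : ((k + 1 - n : ℕ) : ℝ) ≤ inDeg (hostO k (k + 1 - n)) x := by
      exact_mod_cast (hdeg.1 x).2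
    rw [hcast] at h1 h2
    exact ⟨by linarith, by linarith⟩
  have htree : IsOrientedTree k (starTree (blocks r (k - r) (b - 1) hL)) := by
    have := starTree_isOrientedTree (π := blocks r (k - r) (b - 1) hL)
    rwa [show r + (k - r) = k by omega] at this
  have hcont := hf k _ (hostO k (k + 1 - n)) hostO_oriented hhost _ _ htree
  exact hostO_free hL (by omega) (by omega) (by omega) hcont

end Pool.Agent.Results.MP_47458b_co.OrientedLower
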