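import Pool.Agent.Lib.MP_47458b_co.Up.Main
import Pool.Agent.Lib.MP_47458b_co.Upper.Main

/-!
Upper bound for the semidegree threshold in oriented graphs: the function
`f k = k - max (√k / 1000) (2 √k - 20000)` is admissible.
-/

namespace Pool.Agent.Results.MP_47458b_co.OrientedUpper

open Pool.Agent.Lib.MP_47458b_co

/-- The function `k - 2 √k + 20000` is admissible. -/
theorem sharp :
    AdmissibleForOrientedGraphs (fun k => (k : ℝ) - (2 * Real.sqrt k - 20000)) := by
  classical
  intro k V _ D hD hhost W _ T hT
  obtain ⟨hdeg, v, hv1, hv2⟩ := hhost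
  have : Fintype V := Fintype.ofFinite V
  have : Fintype W := Fintype.ofFinite W
  have hdeg' : ∀ s x, (k : ℝ) - (2 * Real.sqrt k - 20000) < ((nb D s x).card : ℝ) := by
    intro s x
    cases s
    · rw [card_nb_false]; exact (hdeg x).2
    · rw [card_nb_true]; exact (hdeg x).1
  have hv : ∀ s, k ≤ (nb D s v).card := by
    intro s
    cases s
    · rw [card_nb_false]; exact hv2
    · rw [card_nb_true]; exact hv1
  by_cases hk : 2 * Real.sqrt k ≤ 20000
  · -- greedy embedding
    have hκ : ∀ s x, k ≤ (nb D s x).card := by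
      intro s x
      have h1 := hdeg' s x
      have h2 : (k : ℝ) < ((nb D s x).card : ℝ) := by linarith
      exact_mod_cast h2.le
    obtain ⟨hTo, hTt, hTc⟩ := hT
    have hW : Fintype.card W = k + 1 := by rw [← Nat.card_eq_fintype_card]; exact hTc
    obtain ⟨r⟩ := hTt.connected.nonempty
    obtain ⟨φ, hφ, -⟩ := IsEmb.greedy hD.1 hκ hTo hTt.isAcyclic (Cn.univ hTt.connected)
      (by rw [Finset.card_univ]; omega) _ {r} (fun _ => v) rfl (Finset.singleton_nonempty r)
      (Finset.subset_univ _) (Cn.single r) (IsEmb.single hTo.1 r v)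
    exact hφ.contains
  · push Not at hk
    set m := ⌊2 * Real.sqrt k - 20000⌋₊ with hm
    have hm1 : (m : ℝ) ≤ 2 * Real.sqrt k - 20000 := Nat.floor_le (by linarith)
    have hm2 : 2 * Real.sqrt k - 20000 < m + 1 := Nat.lt_floor_add_one _
    refine main_nat hD (m := m) ?_ hv hT ?_
    · intro s x
      have h1 := hdeg' s x
      have h2 : (k : ℝ) < ((nb D s x).card + m + 1 : ℕ) := by
        push_cast
        linarith
      have h3 : k < (nb D s x).card + m + 1 := by exact_mod_cast h2
      omega
    · have h1 : Real.sqrt k * Real.sqrt k = k := Real.mul_self_sqrt (Nat.cast_nonneg k)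
      have h2 : ((m : ℝ) + 20000) ^ 2 ≤ 4 * k := by nlinarith [Real.sqrt_nonneg (k : ℝ)]
      exact_mod_cast h2

theorem result :
    AdmissibleForOrientedGraphs
      (fun k => (k : ℝ) - max (Real.sqrt k / 1000) (2 * Real.sqrt k - 20000)) := by
  intro k V _ D hD hhost W _ T hT
  rcases max_choice (Real.sqrt k / 1000) (2 * Real.sqrt k - 20000) with h | h
  · refine Up.admissible k V D hD ?_ W T hT
    refine ⟨fun x => ?_, hhost.2⟩
    have := hhost.1 x
    simp only [h] at this
    exact this
  · refine sharp k V D hD ?_ W T hT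
    refine ⟨fun x => ?_, hhost.2⟩
    have := hhost.1 x
    simp only [h] at this
    exact this

end Pool.Agent.Results.MP_47458b_co.OrientedUpper
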